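import Mathlib
import Pool.Agent.H317CC.Stage

/-!
# A countably compact topological hyperextension, under CH

Assuming the continuum hypothesis there is a hyperextension of `ℕ` which is countably compact: a
family `Z` of Hausdorff ultrafilters on `ℕ`, with the topology inherited from the space of all
ultrafilters, closed under images, directed, and such that every sequence in `Z` has a cluster point
in `Z`.  It is built in `ω₁` steps, adding at each step the limits of all sequences along one
sufficiently generic ultrafilter.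
-/

open Set Filter Cardinal Topology

namespace Pool.Agent.Results.MP_f4378e_lc.CountablyCompact

/-- A topological extension `Y = *X` of a set `X`.  The inclusion of `X` in `Y` is the injective
map `emb`. -/
structure TopologicalExtension (X : Type) where
  /-- the set `*X` -/
  Y : Type
  /-- its topology -/
  top : TopologicalSpace Y
  t1 : T1Space Y
  /-- the inclusion -/
  emb : X → Y
  emb_injective : Function.Injective emb
  /-- `X` is dense -/
  dense : DenseRange emb
  /-- the subspace topology of `X` is discrete -/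
  discrete : DiscreteTopology (Set.range emb)
  /-- the function `*f` -/
  star : (X → X) → Y → Y
  star_continuous : ∀ f, Continuous (star f)
  /-- `*f` extends `f` -/
  star_emb : ∀ f x, star f (emb x) = emb (f x)
  /-- (c) -/
  comp : ∀ f g, star g ∘ star f = star (g ∘ f)
  /-- (i) -/
  fix : ∀ (f : X → X) (A : Set X), (∀ x ∈ A, f x = x) → ∀ ξ ∈ closure (emb '' A), star f ξ = ξ

/-- The conditions (a) and (p) of a hyperextension. -/
structure TopologicalExtension.IsHyperextension {X : Type} (E : TopologicalExtension X) : Prop where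
  a : ∀ f g : X → X, (∀ x, f x ≠ g x) ↔ ∀ ξ, E.star f ξ ≠ E.star g ξ
  p : ∃ p q : X → X, ∀ ξ η, ∃ ζ, E.star p ζ = ξ ∧ E.star q ζ = η

/-- Hausdorff, and every countable open cover has a finite subcover -/
def IsCountablyCompactSpace (Y : Type) (t : TopologicalSpace Y) : Prop :=
  T2Space Y ∧ ∀ U : ℕ → Set Y, (∀ n, IsOpen (U n)) → (⋃ n, U n) = Set.univ →
    ∃ F : Finset ℕ, (⋃ n ∈ F, U n) = Set.univ

open H317.CC

theorem exists_basic {Z : Set (Ultrafilter ℕ)} {S : Set Z} (hS : IsOpen S) {w : Z} (hw : w ∈ S) :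
    ∃ A : Set ℕ, A ∈ w.1 ∧ ∀ u : Z, A ∈ u.1 → u ∈ S := by
  rw [isOpen_induced_iff] at hS
  obtain ⟨T, hT, rfl⟩ := hS
  obtain ⟨B, hB, hwB, hBT⟩ := ultrafilterBasis_is_basis.exists_subset_of_mem_open hw hT
  obtain ⟨A, rfl⟩ := hB
  exact ⟨A, hwB, fun u hu => hBT hu⟩

theorem isOpen_basic {Z : Set (Ultrafilter ℕ)} (A : Set ℕ) : IsOpen {u : Z | A ∈ u.1} :=
  (ultrafilter_isOpen_basic A).preimage continuous_subtype_val

theorem isOpen_of {Z : Set (Ultrafilter ℕ)} {S : Set Z}
    (h : ∀ w ∈ S, ∃ A : Set ℕ, A ∈ w.1 ∧ ∀ u : Z, A ∈ u.1 → u ∈ S) : IsOpen S := by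
  rw [isOpen_iff_forall_mem_open]
  intro w hw
  obtain ⟨A, hA, hAS⟩ := h w hw
  exact ⟨{u : Z | A ∈ u.1}, fun u hu => hAS u hu, isOpen_basic A, hA⟩

/-- the extension determined by a good family of ultrafilters -/
noncomputable def ext (Z : Set (Ultrafilter ℕ)) (hZ : Good Z) : TopologicalExtension ℕ where
  Y := Z
  top := inferInstance
  t1 := inferInstance
  emb := fun n => ⟨pure n, hZ.pure_mem n⟩
  emb_injective := by
    intro a b hab
    exact Ultrafilter.pure_injective (congrArg Subtype.val hab)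
  dense := by
    intro w
    rw [mem_closure_iff]
    intro S hS hw
    obtain ⟨A, hA, hAS⟩ := exists_basic hS hw
    obtain ⟨n, hn⟩ := Ultrafilter.nonempty_of_mem hA
    exact ⟨⟨pure n, hZ.pure_mem n⟩, hAS _ hn, ⟨n, rfl⟩⟩
  discrete := by
    rw [discreteTopology_iff_isOpen_singleton]
    rintro ⟨_, n, rfl⟩
    rw [isOpen_induced_iff]
    refine ⟨{u : Z | ({n} : Set ℕ) ∈ u.1}, isOpen_basic _, ?_⟩
    ext ⟨_, m, rfl⟩
    simp only [Set.mem_preimage, Set.mem_ofPred_eq, Set.mem_singleton_iff]
    constructor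
    · intro h
      have h' : m ∈ ({n} : Set ℕ) := h
      rw [Set.mem_singleton_iff] at h'
      subst h'
      rfl
    · intro h
      have h' : (pure m : Ultrafilter ℕ) = pure n :=
        congrArg (fun t => (t.1 : Z).1) h
      have h'' := Ultrafilter.pure_injective h'
      subst h''
      exact Set.mem_singleton m
  star := fun f u => ⟨u.1.map f, hZ.inv u.1 u.2 f⟩
  star_continuous := by
    intro f
    rw [continuous_def]
    intro S hS
    apply isOpen_of
    intro w hw
    obtain ⟨A, hA, hAS⟩ := exists_basic hS hw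
    exact ⟨{x | f x ∈ A}, hA, fun u hu => hAS _ hu⟩
  star_emb := by
    intro f x
    apply Subtype.ext
    exact Ultrafilter.map_pure _ _
  comp := by
    intro f g
    funext u
    apply Subtype.ext
    exact Ultrafilter.map_map _ _ _
  fix := by
    intro f A hf ξ hξ
    apply Subtype.ext
    have hA : A ∈ ξ.1 := by
      by_contra hA
      have hA' := Ultrafilter.compl_mem_iff_notMem.2 hA
      rw [mem_closure_iff] at hξ
      obtain ⟨_, h1, x, hx, rfl⟩ := hξ {u : Z | Aᶜ ∈ u.1} (isOpen_basic _) hA'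
      have h1' : x ∈ Aᶜ := h1
      exact h1' hx
    apply uext
    intro B
    change {x | f x ∈ B} ∈ ξ.1 ↔ B ∈ ξ.1
    constructor
    · intro h
      refine Filter.mem_of_superset (Filter.inter_mem h hA) ?_
      rintro x ⟨hx1, hx2⟩
      have := hf x hx2
      simp only [Set.mem_ofPred_eq] at hx1
      rwa [this] at hx1
    · intro h
      refine Filter.mem_of_superset (Filter.inter_mem h hA) ?_
      rintro x ⟨hx1, hx2⟩
      simp only [Set.mem_ofPred_eq]
      rw [hf x hx2]
      exact hx1

theorem ext_hyper (Z : Set (Ultrafilter ℕ)) (hZ : Good Z) : (ext Z hZ).IsHyperextension := by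
  refine ⟨?_, ?_⟩
  · intro f g
    constructor
    · intro h ξ hξ
      have h1 : ((ξ : Z).1.map f) = ((ξ : Z).1.map g) := congrArg Subtype.val hξ
      obtain ⟨x, hx⟩ := Ultrafilter.nonempty_of_mem (hZ.hau (ξ : Z).1 (ξ : Z).2 f g h1)
      exact h x hx
    · intro h x hx
      apply h ((ext Z hZ).emb x)
      rw [(ext Z hZ).star_emb, (ext Z hZ).star_emb, hx]
  · refine ⟨fun n => n.unpair.1, fun n => n.unpair.2, ?_⟩
    intro ξ η
    obtain ⟨w, hw, h1, h2⟩ := hZ.dir (ξ : Z).1 (ξ : Z).2 (η : Z).1 (η : Z).2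
    exact ⟨(⟨w, hw⟩ : Z), Subtype.ext h1, Subtype.ext h2⟩

/-- Under CH there is a countably compact hyperextension of `ℕ`. -/
theorem result (hCH : Cardinal.continuum.{0} = Cardinal.aleph 1) :
    ∃ E : TopologicalExtension ℕ, E.IsHyperextension ∧ IsCountablyCompactSpace E.Y E.top := by
  obtain ⟨Z, hZ, hseq⟩ := H317.CC.main hCH
  refine ⟨ext Z hZ, ext_hyper Z hZ, ?_, ?_⟩
  · exact (inferInstance : T2Space Z)
  · change ∀ U : ℕ → Set Z, (∀ n, IsOpen (U n)) → (⋃ n, U n) = Set.univ →
      ∃ F : Finset ℕ, (⋃ n ∈ F, U n) = Set.univ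
    intro U hU hcov
    by_contra hcon
    push Not at hcon
    have hpick : ∀ N : ℕ, ∃ z : Z, ∀ n < N, z ∉ U n := by
      intro N
      have h := hcon (Finset.range N)
      rw [Set.ne_univ_iff_exists_notMem] at h
      obtain ⟨z, hz⟩ := h
      refine ⟨z, fun n hn hzn => hz ?_⟩
      simp only [Set.mem_iUnion]
      exact ⟨n, Finset.mem_range.2 hn, hzn⟩
    choose z hz using hpick
    obtain ⟨w, hw, v, hv, hA⟩ := hseq (fun n => (z n).1) (fun n => (z n).2)
    have hwcov : (⟨w, hw⟩ : Z) ∈ ⋃ n, U n := by rw [hcov]; trivial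
    obtain ⟨n, hn⟩ := Set.mem_iUnion.1 hwcov
    obtain ⟨A, hA1, hA2⟩ := exists_basic (hU n) hn
    have h1 := (hA A).1 hA1
    have h2 : {k : ℕ | n < k} ∈ v := hv (by
      rw [Filter.mem_cofinite]
      refine (Set.finite_Iic n).subset ?_
      intro k hk
      simp only [Set.mem_compl_iff, Set.mem_ofPred_eq, not_lt] at hk
      exact hk)
    obtain ⟨k, hk1, hk2⟩ := Ultrafilter.nonempty_of_mem (Filter.inter_mem h1 h2)
    exact hz k n hk2 (hA2 _ hk1)

end Pool.Agent.Results.MP_f4378e_lc.CountablyCompact
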